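import Pool.Agent.helper76.FV.Defs

/-! Project FV, module GA (helper27) -/

namespace Pool.Agent.helper76.FV

open Finset

section PartI

/-- the cocycle `g(χ^a) g(χ^b) = coc χ a b * g(χ^{a+b})` (with `g(1) = -1`) -/
noncomputable def coc {m p : ℕ} [Fact p.Prime] {R : Type*} [CommRing R]
    (χ : MulChar (ZMod p) R) (a b : ZMod m) : R :=
  if a = 0 ∨ b = 0 then -1
  else if a + b = 0 then -((χ ^ a.val) (-1) * (p : R))
  else jacobiSum (χ ^ a.val) (χ ^ b.val)

/-- `∏ g(χ^{a_i})` for `∑ a_i = 0`, as an element of the ring of values of `χ` -/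
noncomputable def jac {m p : ℕ} [Fact p.Prime] {R : Type*} [CommRing R]
    (χ : MulChar (ZMod p) R) {k : ℕ} (a : Fin k → ZMod m) : R :=
  ∏ i : Fin k, coc χ (∑ j ∈ univ.filter (fun j => j < i), a j) (a i)

/-! GA -/
theorem coc_map {m p : ℕ} [Fact p.Prime] {R S : Type*} [CommRing R] [CommRing S]
    (f : R →+* S) (χ : MulChar (ZMod p) R) (a b : ZMod m) :
    coc (χ.ringHomComp f) a b = f (coc χ a b) := by
  unfold coc
  split_ifs with h1 h2
  · simp
  · rw [MulChar.ringHomComp_pow]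
    simp
  · rw [← jacobiSum_ringHomComp, MulChar.ringHomComp_pow, MulChar.ringHomComp_pow]

theorem jac_map {m p : ℕ} [Fact p.Prime] {R S : Type*} [CommRing R] [CommRing S]
    (f : R →+* S) (χ : MulChar (ZMod p) R) {k : ℕ} (a : Fin k → ZMod m) :
    jac (χ.ringHomComp f) a = f (jac χ a) := by
  unfold jac
  rw [map_prod]
  exact Finset.prod_congr rfl fun i _ => coc_map f χ _ _

theorem pow_pow_val {m p : ℕ} [Fact p.Prime] {R : Type*} [CommRing R] (hm : 0 < m)
    (χ : MulChar (ZMod p) R) (hχ : orderOf χ = m) (s x : ZMod m) :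
    (χ ^ s.val) ^ x.val = χ ^ (s * x).val := by
  have : NeZero m := ⟨hm.ne'⟩
  rw [← pow_mul, pow_eq_pow_iff_modEq, hχ]
  have : ((s.val * x.val : ℕ) : ZMod m) = (((s * x).val : ℕ) : ZMod m) := by
    push_cast
    rw [ZMod.natCast_zmod_val, ZMod.natCast_zmod_val, ZMod.natCast_zmod_val]
  exact (ZMod.natCast_eq_natCast_iff _ _ _).1 this

theorem jac_pow {m p : ℕ} [Fact p.Prime] {R : Type*} [CommRing R] (hm : 0 < m)
    (χ : MulChar (ZMod p) R) (hχ : orderOf χ = m) (s : (ZMod m)ˣ) {k : ℕ} (a : Fin k → ZMod m) :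
    jac (χ ^ (s : ZMod m).val) a = jac χ (fun i => (s : ZMod m) * a i) := by
  unfold jac
  refine Finset.prod_congr rfl fun i _ => ?_
  rw [← Finset.mul_sum]
  generalize (∑ j ∈ univ.filter (fun j => j < i), a j) = x
  change coc _ x (a i) = coc _ _ ((s : ZMod m) * a i)
  generalize a i = y
  unfold coc
  have e1 : ((s : ZMod m) * x = 0 ∨ (s : ZMod m) * y = 0) ↔ (x = 0 ∨ y = 0) := by
    rw [Units.mul_right_eq_zero, Units.mul_right_eq_zero]
  have e2 : ((s : ZMod m) * x + (s : ZMod m) * y = 0) ↔ (x + y = 0) := by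
    rw [← mul_add, Units.mul_right_eq_zero]
  rw [pow_pow_val hm χ hχ, pow_pow_val hm χ hχ]
  simp only [e1, e2]

theorem gauss_coc {m p : ℕ} [Fact p.Prime] (hm : 0 < m)
    (χ : MulChar (ZMod p) ℂ) (hχ : orderOf χ = m) (a b : ZMod m) :
    gaussSum (χ ^ a.val) (ZMod.stdAddChar (N := p)) * gaussSum (χ ^ b.val) (ZMod.stdAddChar (N := p))
      = coc χ a b * gaussSum (χ ^ (a + b).val) (ZMod.stdAddChar (N := p)) := by
  have : NeZero m := ⟨hm.ne'⟩
  have hprim : (ZMod.stdAddChar (N := p)).IsPrimitive := ZMod.isPrimitive_stdAddChar p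
  have hψ : ZMod.stdAddChar (N := p) ≠ 1 := by
    have := hprim (one_ne_zero : (1 : ZMod p) ≠ 0)
    rwa [AddChar.mulShift_one] at this
  have hg1 : gaussSum (1 : MulChar (ZMod p) ℂ) (ZMod.stdAddChar (N := p)) = -1 :=
    gaussSum_one_left hψ
  have hne : ∀ x : ZMod m, x ≠ 0 → χ ^ x.val ≠ 1 := by
    intro x hx h1
    rw [← orderOf_dvd_iff_pow_eq_one, hχ] at h1
    have h2 := Nat.eq_zero_of_dvd_of_lt h1 (ZMod.val_lt x)
    exact hx ((ZMod.val_eq_zero x).1 h2)
  have hmul : χ ^ a.val * χ ^ b.val = χ ^ (a + b).val := by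
    rw [← pow_add, pow_eq_pow_iff_modEq, hχ]
    have : ((a.val + b.val : ℕ) : ZMod m) = (((a + b).val : ℕ) : ZMod m) := by
      push_cast
      rw [ZMod.natCast_zmod_val, ZMod.natCast_zmod_val, ZMod.natCast_zmod_val]
    exact (ZMod.natCast_eq_natCast_iff _ _ _).1 this
  unfold coc
  split_ifs with h1 h2
  · rcases h1 with rfl | rfl
    · rw [ZMod.val_zero, pow_zero, hg1, zero_add]
    · rw [ZMod.val_zero, pow_zero, hg1, add_zero, mul_comm]
  · push Not at h1
    rw [h2, ZMod.val_zero, pow_zero, hg1]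
    rw [h2, ZMod.val_zero, pow_zero] at hmul
    have hb : χ ^ b.val = (χ ^ a.val)⁻¹ := by
      rw [eq_comm, inv_eq_iff_mul_eq_one]
      exact hmul
    rw [hb]
    have e1 := gaussSum_mul_gaussSum_eq_card (hne a h1.1) hprim
    have e2 := mul_gaussSum_inv_eq_gaussSum (χ ^ a.val)⁻¹ (ZMod.stdAddChar (N := p))
    rw [← e2, mul_left_comm, e1, ZMod.card, MulChar.inv_apply']
    rw [inv_neg, inv_one]
    ring
  · push Not at h1
    have h3 : χ ^ a.val * χ ^ b.val ≠ 1 := by
      rw [hmul]; exact hne _ h2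
    have := jacobiSum_mul_nontrivial h3 (ZMod.stdAddChar (N := p))
    rw [hmul] at this
    rw [← this, mul_comm]

theorem jac_gauss {m p : ℕ} [Fact p.Prime] (hm : 0 < m)
    (χ : MulChar (ZMod p) ℂ) (hχ : orderOf χ = m) {k : ℕ} (a : Fin k → ZMod m)
    (hs : ∑ i, a i = 0) :
    ∏ i, gaussSum (χ ^ (a i).val) (ZMod.stdAddChar (N := p)) = jac χ a := by
  have : NeZero m := ⟨hm.ne'⟩
  have hprim : (ZMod.stdAddChar (N := p)).IsPrimitive := ZMod.isPrimitive_stdAddChar p
  have hψ : ZMod.stdAddChar (N := p) ≠ 1 := by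
    have := hprim (one_ne_zero : (1 : ZMod p) ≠ 0)
    rwa [AddChar.mulShift_one] at this
  have hg1 : gaussSum (1 : MulChar (ZMod p) ℂ) (ZMod.stdAddChar (N := p)) = -1 :=
    gaussSum_one_left hψ
  set G : ZMod m → ℂ := fun x => gaussSum (χ ^ x.val) (ZMod.stdAddChar (N := p)) with hG
  have hG0 : G 0 = -1 := by
    simp only [hG, ZMod.val_zero, pow_zero]
    exact hg1
  let a' : ℕ → ZMod m := fun i => if h : i < k then a ⟨i, h⟩ else 0
  have ha' : ∀ i : Fin k, a' i = a i := by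
    intro i
    simp only [a', i.2, dif_pos]
  have hsum : ∀ i : Fin k, ∑ j ∈ univ.filter (fun j => j < i), a j = ∑ j ∈ range i, a' j := by
    intro i
    symm
    refine Finset.sum_bij' (i := fun j hj => (⟨j, lt_trans (Finset.mem_range.1 hj) i.2⟩ : Fin k))
      (j := fun j _ => (j : ℕ)) ?_ ?_ ?_ ?_ ?_
    · intro j hj
      simp only [mem_filter, mem_univ, true_and]
      exact Finset.mem_range.1 hj
    · intro j hj
      simp only [mem_filter, mem_univ, true_and] at hj
      exact Finset.mem_range.2 hj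
    · intro j hj; rfl
    · intro j hj; rfl
    · intro j hj
      have := ha' ⟨j, lt_trans (Finset.mem_range.1 hj) i.2⟩
      exact this
  have key : ∀ n : ℕ, (∏ i ∈ range n, G (a' i))
      * G 0 = (∏ i ∈ range n, coc χ (∑ j ∈ range i, a' j) (a' i)) * G (∑ j ∈ range n, a' j) := by
    intro n
    induction n with
    | zero => simp
    | succ n ih =>
      rw [prod_range_succ, prod_range_succ, sum_range_succ]
      have h1 := gauss_coc hm χ hχ (∑ j ∈ range n, a' j) (a' n)
      calc (∏ i ∈ range n, G (a' i)) * G (a' n) * G 0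
          = (∏ i ∈ range n, G (a' i)) * G 0 * G (a' n) := by ring
        _ = (∏ i ∈ range n, coc χ (∑ j ∈ range i, a' j) (a' i)) *
              (G (∑ j ∈ range n, a' j) * G (a' n)) := by rw [ih]; ring
        _ = _ := by
              rw [h1]; ring
  have h1 := key k
  have h2 : ∑ j ∈ range k, a' j = 0 := by
    rw [← hs, ← Fin.sum_univ_eq_sum_range]
    exact Finset.sum_congr rfl fun i _ => ha' i
  rw [h2, hG0] at h1
  have h3 : ∏ i ∈ range k, G (a' i) = ∏ i ∈ range k, coc χ (∑ j ∈ range i, a' j) (a' i) := by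
    linear_combination -h1
  rw [← Fin.prod_univ_eq_prod_range, ← Fin.prod_univ_eq_prod_range] at h3
  unfold jac
  have h4 : ∏ i : Fin k, G (a' i) = ∏ i, gaussSum (χ ^ (a i).val) (ZMod.stdAddChar (N := p)) :=
    Finset.prod_congr rfl fun i _ => by rw [ha']
  rw [← h4, h3]
  refine Finset.prod_congr rfl fun i _ => ?_
  rw [hsum, ha']

end PartI

end Pool.Agent.helper76.FV
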