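import Pool.Agent.helper27.FV.GA
import Pool.Agent.helper86.FV.GV

/-! Project FV, module GF (helper27) -/

namespace Pool.Agent.helper76.FV

open Finset

open NumberField in
/-- every complex character of order `m` comes from a number field -/
theorem GF_model {m p : ℕ} [Fact p.Prime] (hm : 0 < m) (χ : MulChar (ZMod p) ℂ)
    (hχ : orderOf χ = m) :
    ∃ (K : Type) (_ : Field K) (_ : NumberField K) (f : 𝓞 K →+* ℂ) (χK : MulChar (ZMod p) (𝓞 K)),
      Function.Injective f ∧ χK.ringHomComp f = χ ∧ orderOf χK = m := by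
  have : NeZero m := ⟨hm.ne'⟩
  have hC : IsCyclotomicExtension {m} ℚ (CyclotomicField m ℚ) :=
    CyclotomicField.isCyclotomicExtension m ℚ
  have hζ := IsCyclotomicExtension.zeta_spec m ℚ (CyclotomicField m ℚ)
  let K := CyclotomicField m ℚ
  have hζ' := hζ.toInteger_isPrimitiveRoot
  set ζ' : 𝓞 K := hζ.toInteger with hζdef
  let φ : K →+* ℂ := Classical.choice inferInstance
  let f : 𝓞 K →+* ℂ := φ.comp (algebraMap (𝓞 K) K)
  have hf : Function.Injective f :=
    φ.injective.comp (FaithfulSMul.algebraMap_injective (𝓞 K) K)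
  have hfζ : IsPrimitiveRoot (f ζ') m := hζ'.map_of_injective hf
  obtain ⟨g, hg⟩ := IsCyclic.exists_generator (α := (ZMod p)ˣ)
  obtain ⟨j, -, hj⟩ := MulChar.exists_apply_eq_pow (χ := χ) (by rw [← hχ]; exact pow_orderOf_eq_one χ)
    hfζ g.ne_zero
  let ζu : (𝓞 K)ˣ := (hζ'.isUnit hm.ne').unit
  have hζu : (ζu : 𝓞 K) = ζ' := rfl
  have hdvd : m ∣ Fintype.card (ZMod p)ˣ := by
    rw [Fintype.card_units, ← hχ]
    exact MulChar.orderOf_dvd_card_sub_one (ZMod p) χ
  have hmem : ζu ^ j ∈ rootsOfUnity (Fintype.card (ZMod p)ˣ) (𝓞 K) := by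
    rw [mem_rootsOfUnity]
    have h1 : ζu ^ Fintype.card (ZMod p)ˣ = 1 := by
      apply Units.ext
      push_cast
      rw [hζu]
      exact (hζ'.pow_eq_one_iff_dvd _).2 hdvd
    rw [← pow_mul, mul_comm, pow_mul, h1, one_pow]
  let χK := MulChar.ofRootOfUnity hmem hg
  have hspec : χK g = ((ζu ^ j : (𝓞 K)ˣ) : 𝓞 K) := MulChar.ofRootOfUnity_spec hmem hg
  have hcomp : χK.ringHomComp f = χ := by
    rw [MulChar.eq_iff hg, MulChar.ringHomComp_apply, hspec, hj]
    push_cast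
    rw [hζu, map_pow]
  refine ⟨K, inferInstance, inferInstance, f, χK, hf, hcomp, ?_⟩
  have hord : orderOf χK = orderOf χ := by
    rw [orderOf_eq_orderOf_iff]
    intro n
    rw [← hcomp, MulChar.ringHomComp_pow, MulChar.ringHomComp_eq_one_iff hf]
  rw [hord, hχ]

/-- `(jac a * jac (-a))^2 = p^(2k)` over `ℂ` -/
theorem GF_jac_neg {m p : ℕ} [Fact p.Prime] (hm : 0 < m) (χ : MulChar (ZMod p) ℂ)
    (hχ : orderOf χ = m) {k : ℕ} (a : Fin k → ZMod m) (h0 : ∀ i, a i ≠ 0) (hs : ∑ i, a i = 0) :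
    (jac χ a * jac χ (fun i => - a i)) ^ 2 = ((p : ℂ) ^ k) ^ 2 := by
  have : NeZero m := ⟨hm.ne'⟩
  rw [← jac_gauss hm χ hχ a hs, ← jac_gauss hm χ hχ (fun i => - a i) (by
    rw [Finset.sum_neg_distrib, hs, neg_zero]), ← Finset.prod_mul_distrib]
  have h1 : ∀ i, gaussSum (χ ^ (a i).val) (ZMod.stdAddChar (N := p)) *
      gaussSum (χ ^ (- a i).val) (ZMod.stdAddChar (N := p)) = (χ ^ (a i).val) (-1) * p := by
    intro i
    have h2 := gauss_coc hm χ hχ (a i) (- a i)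
    rw [h2]
    have hprim : (ZMod.stdAddChar (N := p)).IsPrimitive := ZMod.isPrimitive_stdAddChar p
    have hψ : ZMod.stdAddChar (N := p) ≠ 1 := by
      have := hprim (one_ne_zero : (1 : ZMod p) ≠ 0)
      rwa [AddChar.mulShift_one] at this
    rw [add_neg_cancel, ZMod.val_zero, pow_zero, gaussSum_one_left hψ]
    unfold coc
    rw [if_neg (by push Not; exact ⟨h0 i, neg_ne_zero.2 (h0 i)⟩), if_pos (add_neg_cancel _)]
    ring
  rw [Finset.prod_congr rfl fun i _ => h1 i, Finset.prod_mul_distrib, mul_pow,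
    Finset.prod_const, Finset.card_univ, Fintype.card_fin, ← Finset.prod_pow]
  have h3 : ∏ i : Fin k, ((χ ^ (a i).val) (-1)) ^ 2 = 1 := by
    apply Finset.prod_eq_one
    intro i _
    rw [← map_pow, neg_one_sq, map_one]
  rw [h3, one_mul]

/-- absolute value of `jac` -/
theorem GF_norm {m p : ℕ} [Fact p.Prime] (hm : 0 < m) (χ : MulChar (ZMod p) ℂ)
    (hχ : orderOf χ = m) {k : ℕ} (a : Fin k → ZMod m) (h0 : ∀ i, a i ≠ 0) (hs : ∑ i, a i = 0) :
    ‖jac χ a‖ ^ 2 = (p : ℝ) ^ k := by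
  have : NeZero m := ⟨hm.ne'⟩
  rw [← jac_gauss hm χ hχ a hs, norm_prod, ← Finset.prod_pow]
  have hprim : (ZMod.stdAddChar (N := p)).IsPrimitive := ZMod.isPrimitive_stdAddChar p
  have hne : ∀ x : ZMod m, x ≠ 0 → χ ^ x.val ≠ 1 := by
    intro x hx h1
    rw [← orderOf_dvd_iff_pow_eq_one, hχ] at h1
    have h2 := Nat.eq_zero_of_dvd_of_lt h1 (ZMod.val_lt x)
    exact hx ((ZMod.val_eq_zero x).1 h2)
  have h1 : ∀ i, ‖gaussSum (χ ^ (a i).val) (ZMod.stdAddChar (N := p))‖ ^ 2 = (p : ℝ) := by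
    intro i
    have e1 := gaussSum_mul_gaussSum_eq_card (hne (a i) (h0 i)) hprim
    rw [← star_gaussSum_eq, ZMod.card] at e1
    have e2 : ((‖gaussSum (χ ^ (a i).val) (ZMod.stdAddChar (N := p))‖ ^ 2 : ℝ) : ℂ) = (p : ℂ) := by
      rw [← e1]
      push_cast
      exact (Complex.mul_conj' _).symm
    exact_mod_cast e2
  rw [Finset.prod_congr rfl fun i _ => h1 i, Finset.prod_const, Finset.card_univ,
    Fintype.card_fin]


open NumberField in
theorem GF_mp (m : ℕ) (hm : 2 ≤ m) {k : ℕ} (a : Fin k → ZMod m) (h0 : ∀ i, a i ≠ 0)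
    (hs : ∑ i, a i = 0) (h : FrobTate m a) : TateM m a := by
  have hm0 : 0 < m := by omega
  have : NeZero m := ⟨hm0.ne'⟩
  obtain ⟨p, hp, -, hpm⟩ := Nat.exists_prime_gt_modEq_one (k := m) 0 hm0.ne'
  have : Fact p.Prime := ⟨hp⟩
  have hdvd : m ∣ Fintype.card (ZMod p) - 1 := by
    rw [ZMod.card]
    exact (Nat.modEq_iff_dvd' hp.one_lt.le).1 hpm.symm
  obtain ⟨χ, hχ⟩ := MulChar.exists_mulChar_orderOf (ZMod p) hdvd
    (Complex.isPrimitiveRoot_exp m hm0.ne')
  obtain ⟨K, _, _, f, χK, hf, hcomp, hord⟩ := GF_model hm0 χ hχ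
  -- a place above p
  have hpr : (Ideal.span {(p : ℤ)}).IsPrime := by
    rw [Ideal.span_singleton_prime (by exact_mod_cast hp.ne_zero)]
    exact Nat.prime_iff_prime_int.1 hp
  obtain ⟨⟨P, hP1, hP2⟩⟩ := (Ideal.span {(p : ℤ)}).nonempty_primesOver (S := 𝓞 K)
  have hpP : (p : 𝓞 K) ∈ P := by
    have h1 : (p : ℤ) ∈ Ideal.comap (algebraMap ℤ (𝓞 K)) P := by
      have := hP2.over
      rw [Ideal.under_def] at this
      rw [← this]
      exact Ideal.mem_span_singleton_self _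
    have h2 := Ideal.mem_comap.1 h1
    simpa using h2
  have hp0 : (p : 𝓞 K) ≠ 0 := by exact_mod_cast hp.ne_zero
  let v : IsDedekindDomain.HeightOneSpectrum (𝓞 K) := ⟨P, hP1, fun h => hp0 (by
    rw [h] at hpP; simpa using hpP)⟩
  have hv : (p : 𝓞 K) ∈ v.asIdeal := hpP
  obtain ⟨c, hc⟩ := jac_val hm hpm χK hord v hv
  refine ⟨h0, fun t => ?_⟩
  -- use s with c s = t
  set s : (ZMod m)ˣ := c⁻¹ * t with hsdef
  have hcs : (c : ZMod m) * (s : ZMod m) = t := by
    rw [hsdef]; push_cast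
    rw [← mul_assoc, Units.mul_inv, one_mul]
  have hχs : orderOf (χ ^ (s : ZMod m).val) = m := by
    rw [orderOf_pow, hχ]
    have : Nat.Coprime (s : ZMod m).val m := ZMod.val_coe_unit_coprime s
    rw [Nat.coprime_comm, Nat.coprime_iff_gcd_eq_one] at this
    rw [this, Nat.div_one]
  obtain ⟨n, hn, hF⟩ := h p ⟨hp⟩ hpm (χ ^ (s : ZMod m).val) hχs
  rw [jac_gauss hm0 _ hχs a hs, jac_pow hm0 χ hχ s a, ← hcomp, jac_map] at hF
  have hF' : ((jac χK (fun i => (s : ZMod m) * a i)) ^ 2) ^ n = ((p : 𝓞 K) ^ k) ^ n := by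
    apply hf
    rw [map_pow, map_pow, hF]
    simp
  have hsum : ∑ i, (s : ZMod m) * a i = 0 := by
    rw [← Finset.mul_sum, hs, mul_zero]
  have hval := hc k (fun i => (s : ZMod m) * a i) hsum
  have hval2 : (∑ i, ((c : ZMod m) * ((s : ZMod m) * a i)).val) = ∑ i, ((t : ZMod m) * a i).val := by
    refine Finset.sum_congr rfl fun i _ => ?_
    rw [← mul_assoc, hcs]
  rw [hval2] at hval
  have hV := congrArg (fun x => v.valuation K (algebraMap (𝓞 K) K x)) hF'
  simp only [map_pow, map_natCast] at hV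
  set V := v.valuation K (p : K) with hVdef
  set W := v.valuation K (algebraMap (𝓞 K) K (jac χK (fun i => (s : ZMod m) * a i))) with hWdef
  set σ := ∑ i, ((t : ZMod m) * a i).val with hσ
  -- W ^ m = V ^ σ, (W^2)^n = (V^k)^n
  have hE : V ^ (2 * n * σ) = V ^ (k * n * m) := by
    calc V ^ (2 * n * σ) = (V ^ σ) ^ (2 * n) := by rw [← pow_mul]; congr 1; ring
      _ = (W ^ m) ^ (2 * n) := by rw [hval]
      _ = ((W ^ 2) ^ n) ^ m := by rw [← pow_mul, ← pow_mul, ← pow_mul]; congr 1; ring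
      _ = ((V ^ k) ^ n) ^ m := by rw [hV]
      _ = V ^ (k * n * m) := by rw [← pow_mul, ← pow_mul]; congr 1; ring
  have hV1 : V < 1 := by
    have h1 := (v.valuation_lt_one_iff_mem (K := K) (p : 𝓞 K)).2 hv
    simpa using h1
  have hV0 : V ≠ 0 := by
    rw [hVdef, Valuation.ne_zero_iff]
    exact_mod_cast hp.ne_zero
  have hV0' : 0 < V := zero_lt_iff.2 hV0
  have hEE := (pow_right_injective₀ hV0' hV1.ne) hE
  have h3 : n * (2 * σ) = n * (k * m) := by
    calc n * (2 * σ) = 2 * n * σ := by ring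
      _ = k * n * m := hEE
      _ = n * (k * m) := by ring
  exact Nat.eq_of_mul_eq_mul_left hn h3

open NumberField in
theorem GF_mpr (m : ℕ) (hm : 2 ≤ m) {k : ℕ} (a : Fin k → ZMod m) (h0 : ∀ i, a i ≠ 0)
    (hs : ∑ i, a i = 0) (h : TateM m a) : FrobTate m a := by
  have hm0 : 0 < m := by omega
  have : NeZero m := ⟨hm0.ne'⟩
  intro p _ hpm χ hχ
  have hp : p.Prime := Fact.out
  obtain ⟨K, _, _, f, χK, hf, hcomp, hord⟩ := GF_model hm0 χ hχ
  have hsneg : ∑ i, - a i = 0 := by rw [Finset.sum_neg_distrib, hs, neg_zero]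
  rw [jac_gauss hm0 χ hχ a hs, ← hcomp, jac_map]
  -- an embedding argument
  have hpK : (p : K) ≠ 0 := by exact_mod_cast hp.ne_zero
  set J : 𝓞 K := jac χK a with hJ
  set J' : 𝓞 K := jac χK (fun i => - a i) with hJ'
  have hJJ : (J * J') ^ 2 = ((p : 𝓞 K) ^ k) ^ 2 := by
    apply hf
    rw [map_pow, map_mul, hJ, hJ', ← jac_map, ← jac_map, hcomp, GF_jac_neg hm0 χ hχ a h0 hs]
    simp
  set x : K := (algebraMap (𝓞 K) K J) ^ 2 / (p : K) ^ k with hx
  have hxint : ∃ y : 𝓞 K, algebraMap (𝓞 K) K y = x := by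
    apply IsDedekindDomain.HeightOneSpectrum.mem_integers_of_valuation_le_one
    intro v
    rw [hx, map_div₀, map_pow, map_pow]
    by_cases hv : (p : 𝓞 K) ∈ v.asIdeal
    · obtain ⟨c, hc⟩ := jac_val hm hpm χK hord v hv
      have h1 := hc k a hs
      have h2 := h.2 c
      have h3 : ((v.valuation K (algebraMap (𝓞 K) K J)) ^ 2) ^ m = ((v.valuation K (p : K)) ^ k) ^ m := by
        rw [← pow_mul, mul_comm 2 m, pow_mul, h1, ← pow_mul, ← pow_mul, mul_comm _ 2, h2]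
      have h4 := (pow_left_inj₀ zero_le zero_le hm0.ne').1 h3
      rw [h4]
      exact (div_self (pow_ne_zero _ ((Valuation.ne_zero_iff _).2 hpK))).le
    · have h1 : v.valuation K (p : K) = 1 := by
        have h1 := (v.valuation_eq_one_iff_notMem (K := K) (r := (p : 𝓞 K))).2 hv
        simpa using h1
      rw [h1, one_pow, div_one]
      exact pow_le_one₀ zero_le (v.valuation_le_one J)
  obtain ⟨y, hy⟩ := hxint
  have hnorm : ∀ φ : K →+* ℂ, ‖φ x‖ = 1 := by
    intro φ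
    have hφ : Function.Injective (φ.comp (algebraMap (𝓞 K) K)) :=
      φ.injective.comp (FaithfulSMul.algebraMap_injective (𝓞 K) K)
    have e1 : φ (algebraMap (𝓞 K) K J) = jac (χK.ringHomComp (φ.comp (algebraMap (𝓞 K) K))) a := by
      rw [jac_map]; rfl
    have hord' : orderOf (χK.ringHomComp (φ.comp (algebraMap (𝓞 K) K))) = m := by
      rw [← hord, orderOf_eq_orderOf_iff]
      intro n
      rw [MulChar.ringHomComp_pow, MulChar.ringHomComp_eq_one_iff hφ]
    rw [hx, map_div₀, map_pow, map_pow, map_natCast, norm_div, norm_pow, norm_pow, e1,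
      GF_norm hm0 _ hord' a h0 hs, Complex.norm_natCast]
    exact div_self (pow_ne_zero _ (by exact_mod_cast hp.ne_zero))
  obtain ⟨n, hn, hxn⟩ := NumberField.Embeddings.pow_eq_one_of_norm_eq_one K ℂ
    (x := x) (by rw [← hy]; exact RingOfIntegers.isIntegral_coe y) hnorm
  refine ⟨n, hn, ?_⟩
  have h5 : ((algebraMap (𝓞 K) K J) ^ 2) ^ n = ((p : K) ^ k) ^ n := by
    rw [hx, div_pow] at hxn
    rwa [div_eq_one_iff_eq (pow_ne_zero _ (pow_ne_zero _ hpK))] at hxn
  have h6 : (J ^ 2) ^ n = ((p : 𝓞 K) ^ k) ^ n := by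
    apply FaithfulSMul.algebraMap_injective (𝓞 K) K
    rw [map_pow, map_pow, h5]
    simp
  rw [← map_pow, ← map_pow, h6]
  simp

/-! GF (from GA, GV) -/
theorem frob_iff (m : ℕ) (hm : 0 < m) {k : ℕ} (a : Fin k → ZMod m) (h0 : ∀ i, a i ≠ 0)
    (hs : ∑ i, a i = 0) : FrobTate m a ↔ TateM m a := by
  rcases Nat.lt_or_ge 1 m with h1 | h1
  · exact ⟨GF_mp m h1 a h0 hs, GF_mpr m h1 a h0 hs⟩
  · have h2 : m = 1 := by omega
    subst h2
    rcases Nat.eq_zero_or_pos k with rfl | hk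
    · constructor
      · intro _
        refine ⟨h0, fun t => by simp⟩
      · intro _ p _ _ χ _
        exact ⟨1, one_pos, by simp⟩
    · exact absurd (Subsingleton.elim _ _) (h0 ⟨0, hk⟩)

end Pool.Agent.helper76.FV
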